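import Pool.Agent.TH181.MW.HuaB

set_option autoImplicit false

/-! Iterated differencing, with lower-order terms which are arbitrary real polynomials of small degree. -/

namespace Pool.Agent.K9h39.MW

open Finset
open Pool.Agent.W928.MW (e e_add e_norm)
open Pool.Agent.TH181.MW (LS AA ph sq_out AA_sub LS_sum LS_card card_H two_pow_ge mem_LS Lam)

/-- iterated differences of a real function -/
def pr (F : ℤ → ℝ) : List ℤ → ℤ → ℝ
  | [] => F
  | h :: l => fun n => pr F l (n + h) - pr F l n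

/-- the differenced sum -/
noncomputable def TG (N : ℕ) (F : ℤ → ℝ) (l : List ℤ) : ℂ := ∑ n ∈ AA N l, e (pr F l n)

theorem TG_sq (N : ℕ) (F : ℤ → ℝ) (l : List ℤ) :
    ((‖TG N F l‖ ^ 2 : ℝ) : ℂ) = ∑ h ∈ Icc (-(N : ℤ)) N, TG N F (h :: l) := by
  unfold TG
  rw [sq_out N (AA N l) (AA_sub N l)]
  refine sum_congr rfl fun h _ => ?_
  rw [AA]
  rfl

theorem TG_step (N j : ℕ) (F : ℤ → ℝ) :
    (∑ l ∈ LS (Icc (-(N : ℤ)) N) j, ‖TG N F l‖) ^ 2 ≤
      (2 * (N : ℝ) + 1) ^ j * (∑ l ∈ LS (Icc (-(N : ℤ)) N) (j + 1), TG N F l).re := by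
  have h1 := sq_sum_le_card_mul_sum_sq (s := LS (Icc (-(N : ℤ)) N) j) (f := fun l => ‖TG N F l‖)
  rw [LS_card, card_H] at h1
  have h2 : ∑ l ∈ LS (Icc (-(N : ℤ)) N) j, ‖TG N F l‖ ^ 2 =
      (∑ l ∈ LS (Icc (-(N : ℤ)) N) (j + 1), TG N F l).re := by
    rw [LS_sum, Complex.re_sum]
    apply Finset.sum_congr rfl
    intro l _
    rw [← TG_sq, Complex.ofReal_re]
  rw [h2] at h1
  refine h1.trans (le_of_eq ?_)
  push_cast
  rfl

/-- the Weyl sum with the phase `F` -/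
noncomputable def sG (N : ℕ) (F : ℤ → ℝ) : ℂ := ∑ n ∈ Icc 1 N, e (F n)

theorem sG_TG (N : ℕ) (F : ℤ → ℝ) : sG N F = TG N F [] := by
  unfold sG TG
  simp only [AA, pr]
  symm
  apply Finset.sum_nbij' (fun n : ℤ => n.toNat) (fun n : ℕ => (n : ℤ))
  · intro n hn
    rw [Finset.mem_Icc] at hn ⊢
    omega
  · intro n hn
    rw [Finset.mem_Icc] at hn ⊢
    omega
  · intro n hn
    rw [Finset.mem_Icc] at hn
    exact Int.toNat_of_nonneg (by omega)
  · intro n _; simp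
  · intro n hn
    rw [Finset.mem_Icc] at hn
    have h1 : ((n.toNat : ℕ) : ℤ) = n := Int.toNat_of_nonneg (by omega)
    rw [h1]

theorem weylG (N j : ℕ) (F : ℤ → ℝ) :
    ‖sG N F‖ ^ (2 ^ j) ≤ (2 * (N : ℝ) + 1) ^ (2 ^ j - j - 1) *
      ∑ l ∈ LS (Icc (-(N : ℤ)) N) j, ‖TG N F l‖ := by
  induction j with
  | zero => simp [LS, sG_TG]
  | succ j ih =>
    have h1 : ‖sG N F‖ ^ (2 ^ (j + 1)) = (‖sG N F‖ ^ (2 ^ j)) ^ 2 := by
      rw [← pow_mul, pow_succ]
    rw [h1]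
    have h2 := pow_le_pow_left₀ (by positivity) ih 2
    refine h2.trans ?_
    rw [mul_pow]
    have h3 := TG_step N j F
    have h4 : (∑ l ∈ LS (Icc (-(N : ℤ)) N) (j + 1), TG N F l).re ≤
        ∑ l ∈ LS (Icc (-(N : ℤ)) N) (j + 1), ‖TG N F l‖ :=
      (Complex.re_le_norm _).trans (norm_sum_le _ _)
    have h5 : (2 * (N : ℝ) + 1) ^ j * (∑ l ∈ LS (Icc (-(N : ℤ)) N) (j + 1), TG N F l).re ≤
        (2 * (N : ℝ) + 1) ^ j * ∑ l ∈ LS (Icc (-(N : ℤ)) N) (j + 1), ‖TG N F l‖ :=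
      mul_le_mul_of_nonneg_left h4 (by positivity)
    have h6 : 2 ^ (j + 1) - (j + 1) - 1 = (2 ^ j - j - 1) * 2 + j := by
      have := two_pow_ge j
      rw [pow_succ]; omega
    calc ((2 * (N : ℝ) + 1) ^ (2 ^ j - j - 1)) ^ 2 * (∑ l ∈ LS (Icc (-(N : ℤ)) N) j, ‖TG N F l‖) ^ 2
        ≤ ((2 * (N : ℝ) + 1) ^ (2 ^ j - j - 1)) ^ 2 *
          ((2 * (N : ℝ) + 1) ^ j * ∑ l ∈ LS (Icc (-(N : ℤ)) N) (j + 1), ‖TG N F l‖) :=
          mul_le_mul_of_nonneg_left (h3.trans h5) (by positivity)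
      _ = (2 * (N : ℝ) + 1) ^ (2 ^ (j + 1) - (j + 1) - 1) *
          ∑ l ∈ LS (Icc (-(N : ℤ)) N) (j + 1), ‖TG N F l‖ := by
          rw [h6, pow_add, pow_mul, mul_assoc]

theorem weylG' (N j : ℕ) (F : ℤ → ℝ) :
    ‖sG N F‖ ^ (2 ^ (j + 1)) ≤ (2 * (N : ℝ) + 1) ^ (2 ^ (j + 1) - (j + 1) - 1) *
      (∑ l ∈ LS (Icc (-(N : ℤ)) N) (j + 1), TG N F l).re := by
  have ih := weylG N j F
  have h1 : ‖sG N F‖ ^ (2 ^ (j + 1)) = (‖sG N F‖ ^ (2 ^ j)) ^ 2 := by
    rw [← pow_mul, pow_succ]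
  rw [h1]
  have h2 := pow_le_pow_left₀ (by positivity) ih 2
  refine h2.trans ?_
  rw [mul_pow]
  have h3 := TG_step N j F
  have h6 : 2 ^ (j + 1) - (j + 1) - 1 = (2 ^ j - j - 1) * 2 + j := by
    have := two_pow_ge j
    rw [pow_succ]; omega
  rw [h6, pow_add, pow_mul, mul_assoc]
  exact mul_le_mul_of_nonneg_left h3 (by positivity)

/-- the phase `t n ^ k + ψ(n)` -/
noncomputable def fz (k : ℕ) (t : ℝ) (ψ : Polynomial ℝ) : ℤ → ℝ := fun n => t * (n : ℝ) ^ k + ψ.eval (n : ℝ)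

open Polynomial in
/-- the polynomial of the iterated difference -/
noncomputable def PR (ψ : ℝ[X]) : List ℤ → ℝ[X]
  | [] => ψ
  | h :: l => (PR ψ l).comp (X + C (h : ℝ)) - PR ψ l

open Polynomial in
theorem PR_step (P : ℝ[X]) (a : ℝ) (m : ℕ) (hP : P.degree < ((m + 1 : ℕ) : WithBot ℕ)) :
    (P.comp (X + C a) - P).degree < (m : WithBot ℕ) := by
  by_cases h0 : P.natDegree = 0
  · obtain ⟨c, rfl⟩ : ∃ c : ℝ, P = C c := ⟨_, eq_C_of_natDegree_eq_zero h0⟩
    simp only [C_comp, sub_self, degree_zero]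
    exact WithBot.bot_lt_coe m
  · have hP0 : P ≠ 0 := by
      rintro rfl
      simp at h0
    have hX : (X + C a : ℝ[X]).natDegree = 1 := natDegree_X_add_C a
    have hnd : (P.comp (X + C a)).natDegree = P.natDegree := by rw [natDegree_comp, hX, mul_one]
    have hc0 : P.comp (X + C a) ≠ 0 := by
      intro h
      rw [h, natDegree_zero] at hnd
      exact h0 hnd.symm
    have hd : (P.comp (X + C a)).degree = P.degree := by
      rw [degree_eq_natDegree hc0, degree_eq_natDegree hP0, hnd]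
    have hl : (P.comp (X + C a)).leadingCoeff = P.leadingCoeff := by
      rw [leadingCoeff_comp (by rw [hX]; norm_num), leadingCoeff_X_add_C, one_pow, mul_one]
    have h1 := degree_sub_lt_left hd hc0 hl
    rw [hd] at h1
    rw [degree_eq_natDegree hP0] at h1 hP
    have h2 : P.natDegree < m + 1 := by exact_mod_cast hP
    exact h1.trans_le (by exact_mod_cast (by omega : P.natDegree ≤ m))

open Polynomial in
theorem PR_deg (ψ : ℝ[X]) (l : List ℤ) (m : ℕ) (h : ψ.degree < ((l.length + m : ℕ) : WithBot ℕ)) :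
    (PR ψ l).degree < (m : WithBot ℕ) := by
  induction l generalizing m with
  | nil => simpa [PR] using h
  | cons a l ih =>
    have h1 := ih (m + 1) (by
      have : (a :: l).length + m = l.length + (m + 1) := by rw [List.length_cons]; omega
      rwa [this] at h)
    exact PR_step _ _ _ h1

theorem PR_eval (ψ : Polynomial ℝ) (l : List ℤ) (n : ℤ) :
    (PR ψ l).eval (n : ℝ) = pr (fun n => ψ.eval (n : ℝ)) l n := by
  induction l generalizing n with
  | nil => rfl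
  | cons h l ih =>
    simp only [PR, pr]
    rw [Polynomial.eval_sub, Polynomial.eval_comp, Polynomial.eval_add, Polynomial.eval_X, Polynomial.eval_C, ← ih, ← ih]
    push_cast
    rfl

theorem pr_zero (ψ : Polynomial ℝ) (l : List ℤ) (n : ℤ) (h : ψ.natDegree < l.length) :
    pr (fun n => ψ.eval (n : ℝ)) l n = 0 := by
  rw [← PR_eval]
  have h1 := PR_deg ψ l 0 (by
    rw [add_zero]
    exact lt_of_le_of_lt Polynomial.degree_le_natDegree (by exact_mod_cast h))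
  have h2 : PR ψ l = 0 := by
    rw [← Polynomial.degree_eq_bot]
    exact Nat.WithBot.lt_zero_iff.1 (by exact_mod_cast h1)
  rw [h2, Polynomial.eval_zero]

theorem pr_fz (k : ℕ) (t : ℝ) (ψ : Polynomial ℝ) (l : List ℤ) (n : ℤ) :
    pr (fz k t ψ) l n = t * ((ph (fun n => n ^ k) l n : ℤ) : ℝ) + pr (fun n => ψ.eval (n : ℝ)) l n := by
  induction l generalizing n with
  | nil => simp [pr, fz, ph]
  | cons h l ih =>
    simp only [pr, ph]
    rw [ih, ih]
    push_cast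
    ring

/-- the differenced sum, as a sum over the set of the differences -/
noncomputable def W (k N J : ℕ) (t : ℝ) : ℝ := ∑ z ∈ Lam N J, (e (t * ((ph (fun n => n ^ k) z.1 z.2 : ℤ) : ℝ))).re

/-- the bound for the Weyl sum with all lower-order terms of a degree at most `j` -/
theorem W_sup (k N j : ℕ) (t : ℝ) (ψ : Polynomial ℝ) (hψ : ψ.natDegree < j + 1) :
    ‖sG N (fz k t ψ)‖ ^ (2 ^ (j + 1)) ≤ (2 * (N : ℝ) + 1) ^ (2 ^ (j + 1) - (j + 1) - 1) * W k N (j + 1) t := by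
  refine (weylG' N j (fz k t ψ)).trans (le_of_eq ?_)
  congr 1
  unfold W Lam
  rw [sum_sigma, Complex.re_sum]
  refine sum_congr rfl fun l hl => ?_
  rw [mem_LS] at hl
  unfold TG
  rw [Complex.re_sum]
  refine sum_congr rfl fun n _ => ?_
  rw [pr_fz, pr_zero ψ l n (by rw [hl.1]; exact hψ), add_zero]

end Pool.Agent.K9h39.MW
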