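import Pool.Agent.K9h39.MW.A
import Pool.Agent.TH181.MW.Max

set_option autoImplicit false

/-! The mean of the differenced sum over a set of rational numbers with the same denominator. -/

namespace Pool.Agent.K9h39.MW

open Finset
open Pool.Agent.W928.MW (e e_add e_norm)
open Pool.Agent.TH181.MW (LS AA ph sq_out AA_sub LS_sum LS_card card_H two_pow_ge mem_LS Lam e_conj orth Lam_card Lam_zero
  Lam_nonzero ph_le)

/-- Parseval's identity -/
theorem parseval (M : ℕ) (hM : 1 ≤ M) (T : Finset ℕ) (hT : T ⊆ range M) (c : ℕ → ℂ) (hc : ∀ v, ‖c v‖ = 1) :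
    ∑ i ∈ range M, ‖∑ v ∈ T, c v * e ((v : ℝ) / M * (i : ℝ))‖ ^ 2 = M * T.card := by
  have h1 : ((∑ i ∈ range M, ‖∑ v ∈ T, c v * e ((v : ℝ) / M * (i : ℝ))‖ ^ 2 : ℝ) : ℂ) = ((M * T.card : ℝ) : ℂ) := by
    push_cast
    have h2 : ∀ i ∈ range M, ((‖∑ v ∈ T, c v * e ((v : ℝ) / M * (i : ℝ))‖ : ℂ)) ^ 2 =
        ∑ v ∈ T, ∑ w ∈ T, c v * (starRingEnd ℂ) (c w) * e (((v : ℝ) - w) / M * (i : ℝ)) := by
      intro i _
      rw [← Complex.ofReal_pow, ← Complex.normSq_eq_norm_sq, ← Complex.mul_conj, map_sum, sum_mul_sum]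
      refine sum_congr rfl fun v _ => sum_congr rfl fun w _ => ?_
      rw [map_mul, e_conj]
      have h3 : ((v : ℝ) - w) / M * (i : ℝ) = (v : ℝ) / M * i + -((w : ℝ) / M * i) := by ring
      rw [h3, e_add]
      ring
    rw [sum_congr rfl h2, sum_comm]
    have h3 : ∀ v ∈ T, ∑ i ∈ range M, ∑ w ∈ T, c v * (starRingEnd ℂ) (c w) * e (((v : ℝ) - w) / M * (i : ℝ)) = (M : ℂ) := by
      intro v hv
      rw [sum_comm]
      have h4 : ∀ w ∈ T, ∑ i ∈ range M, c v * (starRingEnd ℂ) (c w) * e (((v : ℝ) - w) / M * (i : ℝ)) =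
          if w = v then (M : ℂ) else 0 := by
        intro w hw
        rw [← mul_sum]
        have h5 := orth M hM (v + 1) (w + 1) (by
          have := mem_range.1 (hT hv)
          rw [mem_Icc]; omega) (by
          have := mem_range.1 (hT hw)
          rw [mem_Icc]; omega)
        have h6 : ∀ b : ℕ, (((v + 1 : ℕ) : ℝ) - ((w + 1 : ℕ) : ℝ)) / M * (b : ℝ) = ((v : ℝ) - w) / M * (b : ℝ) := by
          intro b
          push_cast
          ring
        simp only [h6] at h5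
        rw [h5]
        by_cases hwv : w = v
        · subst hwv
          rw [if_pos rfl, if_pos rfl, Complex.mul_conj, Complex.normSq_eq_norm_sq, hc]
          norm_num
        · rw [if_neg (by omega), if_neg hwv, mul_zero]
      rw [sum_congr rfl h4, sum_ite_eq' T v (fun _ => (M : ℂ)), if_pos hv]
    rw [sum_congr rfl h3, sum_const, nsmul_eq_mul, mul_comm]
  exact_mod_cast h1

/-- the kernel of a set of numerators -/
noncomputable def kr (M : ℕ) (T : Finset ℕ) (x : ℤ) : ℝ := ‖∑ v ∈ T, e ((v : ℝ) / M * (x : ℝ))‖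

theorem kr_nonneg (M : ℕ) (T : Finset ℕ) (x : ℤ) : 0 ≤ kr M T x := norm_nonneg _

theorem kr_le (M : ℕ) (T : Finset ℕ) (x : ℤ) : kr M T x ≤ T.card := by
  unfold kr
  refine (norm_sum_le _ _).trans ?_
  simp only [e_norm, sum_const, nsmul_eq_mul, mul_one]
  exact le_rfl

theorem kr_sq (M H : ℕ) (hH : 2 * H + 1 ≤ M) (T : Finset ℕ) (hT : T ⊆ range M) :
    ∑ x ∈ Icc (-(H : ℤ)) H, kr M T x ^ 2 ≤ M * T.card := by
  have hM : 1 ≤ M := by omega
  rw [← parseval M hM T hT (fun v => e (-((v : ℝ) / M * (H : ℝ)))) (fun v => e_norm _)]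
  have h1 : ∀ x ∈ Icc (-(H : ℤ)) H, kr M T x ^ 2 =
      ‖∑ v ∈ T, e (-((v : ℝ) / M * (H : ℝ))) * e ((v : ℝ) / M * (((x + H).toNat : ℕ) : ℝ))‖ ^ 2 := by
    intro x hx
    rw [mem_Icc] at hx
    have h2 : (((x + H).toNat : ℕ) : ℝ) = (x : ℝ) + H := by
      have h3 : (((x + H).toNat : ℕ) : ℤ) = x + H := Int.toNat_of_nonneg (by omega)
      have h4 : ((((x + H).toNat : ℕ) : ℤ) : ℝ) = ((x + H : ℤ) : ℝ) := by rw [h3]
      push_cast at h4
      exact h4
    unfold kr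
    congr 2
    refine sum_congr rfl fun v _ => ?_
    rw [← e_add, h2]
    congr 1
    ring
  rw [sum_congr rfl h1]
  have h2 : ∑ x ∈ Icc (-(H : ℤ)) H,
      ‖∑ v ∈ T, e (-((v : ℝ) / M * (H : ℝ))) * e ((v : ℝ) / M * (((x + H).toNat : ℕ) : ℝ))‖ ^ 2 =
      ∑ i ∈ (Icc (-(H : ℤ)) (H : ℤ)).image (fun x : ℤ => (x + (H : ℤ)).toNat),
        ‖∑ v ∈ T, e (-((v : ℝ) / M * (H : ℝ))) * e ((v : ℝ) / M * (i : ℝ))‖ ^ 2 := by
    rw [sum_image]
    intro a ha b hb hab
    rw [mem_coe, mem_Icc] at ha hb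
    simp only at hab
    omega
  rw [h2]
  apply sum_le_sum_of_subset_of_nonneg
  · intro i hi
    rw [mem_image] at hi
    obtain ⟨x, hx, rfl⟩ := hi
    rw [mem_Icc] at hx
    rw [mem_range]
    omega
  · intro _ _ _
    positivity

/-- the mean -/
theorem moment (k N J M : ℕ) (hJ : J < k) (hM : 2 ^ (J + 1) * N ^ k + 1 ≤ M) (R : ℝ)
    (hR : ∀ n : ℕ, 1 ≤ n → n ≤ 2 ^ J * N ^ k → (2 * (n.divisors.card : ℝ)) ^ J * k ≤ R) (hR0 : 0 ≤ R) (T : Finset ℕ)
    (hT : T ⊆ range M) :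
    ∑ v ∈ T, W k N J ((v : ℝ) / M) ≤
      (J + k) * (2 * (N : ℝ) + 1) ^ J * T.card + Real.sqrt ((2 * (N : ℝ) + 1) ^ (J + 1) * (R * (M * T.card))) := by
  classical
  have h0 : ∑ v ∈ T, W k N J ((v : ℝ) / M) ≤ ∑ z ∈ Lam N J, kr M T (ph (fun n => n ^ k) z.1 z.2) := by
    unfold W
    rw [sum_comm]
    refine sum_le_sum fun z _ => ?_
    rw [← Complex.re_sum]
    exact Complex.re_le_norm _
  refine h0.trans ?_
  rw [← sum_filter_add_sum_filter_not (Lam N J) (fun z => ph (fun n => n ^ k) z.1 z.2 = 0)]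
  have h1 : ∑ z ∈ (Lam N J).filter (fun z => ph (fun n => n ^ k) z.1 z.2 = 0), kr M T (ph (fun n => n ^ k) z.1 z.2) ≤
      (J + k) * (2 * (N : ℝ) + 1) ^ J * T.card := by
    calc ∑ z ∈ (Lam N J).filter (fun z => ph (fun n => n ^ k) z.1 z.2 = 0), kr M T (ph (fun n => n ^ k) z.1 z.2)
        ≤ ∑ _z ∈ (Lam N J).filter (fun z => ph (fun n => n ^ k) z.1 z.2 = 0), (T.card : ℝ) :=
          sum_le_sum fun z _ => kr_le _ _ _
      _ = (((Lam N J).filter (fun z => ph (fun n => n ^ k) z.1 z.2 = 0)).card : ℝ) * T.card := by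
          rw [sum_const, nsmul_eq_mul]
      _ ≤ _ := by
          apply mul_le_mul_of_nonneg_right _ (Nat.cast_nonneg _)
          exact_mod_cast Lam_zero k N J hJ
  refine add_le_add h1 ?_
  obtain ⟨F, hF⟩ : ∃ F : Finset (Σ _ : List ℤ, ℤ), F = (Lam N J).filter (fun z => ¬ ph (fun n => n ^ k) z.1 z.2 = 0) :=
    ⟨_, rfl⟩
  rw [← hF]
  obtain ⟨H, hH⟩ : ∃ H : ℕ, H = 2 ^ J * N ^ k := ⟨_, rfl⟩
  have hH2 : 2 * H + 1 ≤ M := by
    rw [hH]
    have : 2 ^ (J + 1) * N ^ k = 2 * (2 ^ J * N ^ k) := by ring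
    omega
  have hmap : ∀ z ∈ F, ph (fun n => n ^ k) z.1 z.2 ∈ (Icc (-(H : ℤ)) H).erase 0 := by
    intro z hz
    rw [hF, mem_filter] at hz
    have hz1 := hz.1
    unfold Lam at hz1
    rw [mem_sigma, mem_LS] at hz1
    have h2 := ph_le k N z.1 z.2 hz1.2
    rw [hz1.1.1] at h2
    rw [mem_erase, mem_Icc, hH]
    push_cast
    rw [abs_le] at h2
    exact ⟨hz.2, h2.1, h2.2⟩
  have h2 : ∑ z ∈ F, kr M T (ph (fun n => n ^ k) z.1 z.2) ^ 2 ≤ R * (M * T.card) := by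
    rw [← sum_fiberwise_of_maps_to hmap]
    have h3 : ∀ x ∈ (Icc (-(H : ℤ)) H).erase 0, ∑ z ∈ F.filter (fun z => ph (fun n => n ^ k) z.1 z.2 = x),
        kr M T (ph (fun n => n ^ k) z.1 z.2) ^ 2 ≤ R * kr M T x ^ 2 := by
      intro x hx
      rw [mem_erase, mem_Icc] at hx
      have h4 : ∀ z ∈ F.filter (fun z => ph (fun n => n ^ k) z.1 z.2 = x),
          kr M T (ph (fun n => n ^ k) z.1 z.2) ^ 2 = kr M T x ^ 2 := by
        intro z hz
        rw [(mem_filter.1 hz).2]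
      rw [sum_congr rfl h4, sum_const, nsmul_eq_mul]
      apply mul_le_mul_of_nonneg_right _ (sq_nonneg _)
      have h5 : (F.filter (fun z => ph (fun n => n ^ k) z.1 z.2 = x)).card ≤ (2 * x.natAbs.divisors.card) ^ J * k := by
        refine (card_le_card ?_).trans (Lam_nonzero k N J x.natAbs.divisors.card hJ x hx.1 le_rfl)
        intro z hz
        rw [hF, mem_filter, mem_filter] at hz
        exact mem_filter.2 ⟨hz.1.1, hz.2⟩
      have h6 := hR x.natAbs (by omega) (by omega)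
      refine le_trans ?_ h6
      exact_mod_cast h5
    refine (sum_le_sum h3).trans ?_
    rw [← mul_sum]
    apply mul_le_mul_of_nonneg_left _ hR0
    exact (sum_le_sum_of_subset_of_nonneg (erase_subset _ _) fun _ _ _ => sq_nonneg _).trans (kr_sq M H hH2 T hT)
  have h3 : (∑ z ∈ F, kr M T (ph (fun n => n ^ k) z.1 z.2)) ^ 2 ≤
      (2 * (N : ℝ) + 1) ^ (J + 1) * (R * (M * T.card)) := by
    have h4 := sq_sum_le_card_mul_sum_sq (s := F) (f := fun z => kr M T (ph (fun n => n ^ k) z.1 z.2))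
    refine h4.trans ?_
    have h5 : (F.card : ℝ) ≤ (2 * (N : ℝ) + 1) ^ (J + 1) := by
      have h6 : F.card ≤ (Lam N J).card := by
        rw [hF]
        exact card_le_card (filter_subset _ _)
      have h7 : F.card ≤ (2 * N + 1) ^ (J + 1) := by
        refine (h6.trans (Lam_card N J)).trans ?_
        rw [pow_succ]
        exact Nat.mul_le_mul_left _ (by omega)
      exact_mod_cast h7
    exact mul_le_mul h5 h2 (sum_nonneg fun _ _ => sq_nonneg _) (by positivity)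
  exact Real.le_sqrt_of_sq_le h3

end Pool.Agent.K9h39.MW
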