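import Pool.Agent.K9h39.MW.B
import Pool.Agent.H373R2.T4.DivB

set_option autoImplicit false

/-! The number of the exceptional rational numbers with the same denominator. -/

namespace Pool.Agent.K9h39.MW

open Finset
open Pool.Agent.W928.MW (e e_add e_norm)
open Pool.Agent.TH181.MW (two_pow_ge)

/-- the denominator -/
def DN (k J N : ℕ) : ℕ := 2 ^ (J + 1) * N ^ k + 1

/-- the number of the exceptional numerators -/
theorem few (k j : ℕ) (hjk : j + 1 < k) (ε' : ℝ) (hε' : 0 < ε') :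
    ∃ C : ℝ, 0 < C ∧ ∀ N : ℕ, 1 ≤ N → ∀ μ : ℝ, 0 < μ → ∀ T : Finset ℕ, T ⊆ range (DN k (j + 1) N) →
      (∀ v ∈ T, ∃ ψ : Polynomial ℝ, ψ.natDegree < j + 1 ∧ μ < ‖sG N (fz k ((v : ℝ) / (DN k (j + 1) N : ℕ)) ψ)‖) →
      2 * ((j + 1 : ℕ) + k : ℝ) * (2 * (N : ℝ) + 1) ^ (2 ^ (j + 1) - 1) ≤ μ ^ (2 ^ (j + 1)) →
      (T.card : ℝ) * μ ^ (2 ^ (j + 2)) ≤ C * (N : ℝ) ^ (((k + 2 ^ (j + 2) - (j + 2) : ℕ) : ℝ) + ε') := by
  classical
  obtain ⟨J, hJ⟩ : ∃ J : ℕ, J = j + 1 := ⟨_, rfl⟩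
  have hJk : J < k := by omega
  obtain ⟨V, hV⟩ : ∃ V : ℕ, V = 2 ^ (j + 1) - (j + 1) - 1 := ⟨_, rfl⟩
  have hk0 : (0 : ℝ) < k := by exact_mod_cast (by omega : 0 < k)
  have hJ0 : (0 : ℝ) < J := by exact_mod_cast (by omega : 0 < J)
  obtain ⟨δ, hδ⟩ : ∃ δ : ℝ, δ = ε' / (J * k) := ⟨_, rfl⟩
  have hδ0 : 0 < δ := by rw [hδ]; positivity
  obtain ⟨C₀, hC₀, hdiv⟩ := Pool.Agent.H373R2.T4.DivB.div_bound hδ0
  obtain ⟨C₁, hC₁⟩ : ∃ C₁ : ℝ, C₁ = (2 * (C₀ * ((2 : ℝ) ^ J) ^ δ)) ^ J * k := ⟨_, rfl⟩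
  have hC₁0 : 0 < C₁ := by rw [hC₁]; positivity
  obtain ⟨P, hP⟩ : ∃ P : ℝ, P = (2 : ℝ) ^ (J + 1) + 1 := ⟨_, rfl⟩
  have hP0 : 0 < P := by rw [hP]; positivity
  refine ⟨4 * (3 : ℝ) ^ (2 * V + J + 1) * C₁ * P, by positivity, ?_⟩
  intro N hN μ hμ T hT hbad hcond
  rw [← hJ] at hT hbad hcond
  obtain ⟨M, hM⟩ : ∃ M : ℕ, M = DN k J N := ⟨_, rfl⟩
  rw [← hM] at hT hbad
  have hN1 : (1 : ℝ) ≤ N := by exact_mod_cast hN
  have hN0 : (0 : ℝ) < N := by linarith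
  have hNk : 1 ≤ N ^ k := Nat.one_le_pow _ _ hN
  have hNkr : (1 : ℝ) ≤ (N : ℝ) ^ (k : ℝ) := Real.one_le_rpow hN1 hk0.le
  have hNkk : ((N ^ k : ℕ) : ℝ) = (N : ℝ) ^ (k : ℝ) := by push_cast; rw [Real.rpow_natCast]
  have hM3 : (M : ℝ) ≤ P * (N : ℝ) ^ (k : ℝ) := by
    have : (M : ℝ) = 2 ^ (J + 1) * ((N ^ k : ℕ) : ℝ) + 1 := by rw [hM, DN]; push_cast; ring
    rw [this, hNkk, hP]
    linarith
  -- the divisor bound
  obtain ⟨R, hR⟩ : ∃ R : ℝ, R = C₁ * (N : ℝ) ^ ε' := ⟨_, rfl⟩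
  have hR0 : 0 ≤ R := by rw [hR]; positivity
  have hRd : ∀ n : ℕ, 1 ≤ n → n ≤ 2 ^ J * N ^ k → (2 * (n.divisors.card : ℝ)) ^ J * k ≤ R := by
    intro n hn1 hn2
    have h2 := hdiv n (by omega)
    have h3 : (n : ℝ) ^ δ ≤ ((2 : ℝ) ^ J) ^ δ * (N : ℝ) ^ (ε' / J) := by
      have h4 : (n : ℝ) ≤ 2 ^ J * (N : ℝ) ^ (k : ℝ) := by
        rw [← hNkk]
        exact_mod_cast hn2
      calc (n : ℝ) ^ δ ≤ (2 ^ J * (N : ℝ) ^ (k : ℝ)) ^ δ :=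
            Real.rpow_le_rpow (Nat.cast_nonneg _) h4 hδ0.le
        _ = _ := by
            rw [Real.mul_rpow (by positivity) (by positivity), ← Real.rpow_mul hN0.le]
            congr 2
            rw [hδ]
            field_simp
    have h5 : (n.divisors.card : ℝ) ≤ C₀ * (((2 : ℝ) ^ J) ^ δ * (N : ℝ) ^ (ε' / J)) :=
      h2.trans (mul_le_mul_of_nonneg_left h3 (by linarith))
    have h6 : (2 * (n.divisors.card : ℝ)) ^ J ≤ (2 * (C₀ * (((2 : ℝ) ^ J) ^ δ * (N : ℝ) ^ (ε' / J)))) ^ J :=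
      pow_le_pow_left₀ (by positivity) (by linarith) J
    have h7 : ((N : ℝ) ^ (ε' / J)) ^ J = (N : ℝ) ^ ε' := by
      rw [← Real.rpow_natCast, ← Real.rpow_mul hN0.le]
      congr 1
      field_simp
    calc (2 * (n.divisors.card : ℝ)) ^ J * k ≤ (2 * (C₀ * (((2 : ℝ) ^ J) ^ δ * (N : ℝ) ^ (ε' / J)))) ^ J * k := by
          gcongr
      _ = R := by rw [hR, hC₁, ← h7]; ring
  have hmom := moment k N J M hJk (by rw [hM, DN]) R hRd hR0 T hT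
  obtain ⟨a, ha⟩ : ∃ a : ℝ, a = T.card := ⟨_, rfl⟩
  have ha0 : 0 ≤ a := by rw [ha]; positivity
  obtain ⟨X, hX⟩ : ∃ X : ℝ, X = μ ^ (2 ^ J) := ⟨_, rfl⟩
  have hX0 : 0 < X := by rw [hX]; positivity
  obtain ⟨A, hA⟩ : ∃ A : ℝ, A = 2 * (N : ℝ) + 1 := ⟨_, rfl⟩
  have hA0 : 0 < A := by rw [hA]; positivity
  rw [← hA, ← ha] at hmom
  rw [← hA, ← hX] at hcond
  rw [← ha]
  obtain ⟨B, hB⟩ : ∃ B : ℝ, B = A ^ (J + 1) * (R * (M * a)) := ⟨_, rfl⟩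
  have hB0 : 0 ≤ B := by rw [hB]; positivity
  rw [← hB] at hmom
  have h1 : a * X ≤ A ^ V * (((J : ℝ) + k) * A ^ J * a + Real.sqrt B) := by
    calc a * X = ∑ _v ∈ T, μ ^ (2 ^ J) := by rw [sum_const, nsmul_eq_mul, ha, hX]
      _ ≤ ∑ v ∈ T, A ^ V * W k N J ((v : ℝ) / M) := by
          refine sum_le_sum fun v hv => ?_
          obtain ⟨ψ, hψ, hψ2⟩ := hbad v hv
          refine (pow_le_pow_left₀ hμ.le hψ2.le (2 ^ J)).trans ?_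
          rw [hJ] at hψ ⊢
          rw [hV, hA]
          exact W_sup k N j _ ψ hψ
      _ = A ^ V * ∑ v ∈ T, W k N J ((v : ℝ) / M) := by rw [mul_sum]
      _ ≤ _ := mul_le_mul_of_nonneg_left hmom (by positivity)
  have hVJ : V + J = 2 ^ J - 1 := by
    have := two_pow_ge (j + 1)
    rw [hV, hJ]
    omega
  have h2 : 2 * (A ^ V * (((J : ℝ) + k) * A ^ J * a)) ≤ a * X := by
    rw [← hVJ] at hcond
    calc 2 * (A ^ V * (((J : ℝ) + k) * A ^ J * a)) = a * (2 * ((J : ℝ) + k) * A ^ (V + J)) := by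
          rw [pow_add]; ring
      _ ≤ a * X := mul_le_mul_of_nonneg_left hcond ha0
  have h3 : a * X ≤ 2 * (A ^ V * Real.sqrt B) := by
    rw [mul_add] at h1
    linarith
  have h4 : (a * X) ^ 2 ≤ 4 * A ^ (2 * V) * B := by
    have h5 := pow_le_pow_left₀ (by positivity) h3 2
    refine h5.trans (le_of_eq ?_)
    rw [mul_pow, mul_pow, Real.sq_sqrt hB0, ← pow_mul, mul_comm V 2]
    ring
  have h5 : a * X ^ 2 ≤ 4 * A ^ (2 * V + J + 1) * R * M := by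
    rcases ha0.eq_or_lt with h6 | h6
    · rw [← h6, zero_mul]
      positivity
    · rw [hB] at h4
      have h7 : a * (a * X ^ 2) ≤ a * (4 * A ^ (2 * V + J + 1) * R * M) := by
        calc a * (a * X ^ 2) = (a * X) ^ 2 := by ring
          _ ≤ 4 * A ^ (2 * V) * (A ^ (J + 1) * (R * (M * a))) := h4
          _ = a * (4 * A ^ (2 * V + J + 1) * R * M) := by
              rw [add_assoc (2 * V), pow_add]; ring
      exact le_of_mul_le_mul_left h7 h6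
  have h6 : X ^ 2 = μ ^ (2 ^ (j + 2)) := by
    rw [hX, ← pow_mul, hJ]
    congr 1
  rw [← h6]
  have hA3 : A ≤ 3 * N := by rw [hA]; linarith
  have hexp : ((k + 2 ^ (j + 2) - (j + 2) : ℕ) : ℝ) = ((2 * V + J + 1 : ℕ) : ℝ) + k := by
    have := two_pow_ge (j + 1)
    have h8 : k + 2 ^ (j + 2) - (j + 2) = (2 * V + J + 1) + k := by
      have h9 : 2 ^ (j + 2) = 2 * 2 ^ (j + 1) := by ring
      rw [hV, hJ, h9]
      omega
    rw [h8]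
    push_cast
    ring
  rw [hexp]
  calc a * X ^ 2 ≤ 4 * A ^ (2 * V + J + 1) * R * M := h5
    _ ≤ 4 * (3 * (N : ℝ)) ^ (2 * V + J + 1) * R * (P * (N : ℝ) ^ (k : ℝ)) := by
        gcongr
    _ = 4 * (3 : ℝ) ^ (2 * V + J + 1) * C₁ * P *
        ((N : ℝ) ^ ((2 * V + J + 1 : ℕ) : ℝ) * (N : ℝ) ^ (k : ℝ) * (N : ℝ) ^ ε') := by
        rw [hR, Real.rpow_natCast (N : ℝ) (2 * V + J + 1), mul_pow]
        ring
    _ = _ := by
        rw [← Real.rpow_add hN0, ← Real.rpow_add hN0]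

end Pool.Agent.K9h39.MW
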