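import Pool.Agent.K9h39.MW.C
import Pool.Agent.TH181.MW.Cov

set_option autoImplicit false

/-! Incomplete sums, local constancy, and the covering of the exceptional set. -/

namespace Pool.Agent.K9h39.MW

open Finset MeasureTheory
open Pool.Agent.W928.MW (e e_add e_norm ev_pow ev_log e_lip)
open Pool.Agent.TH181.MW (two_pow_ge max_le sum_Icc_range S_DIMG_t)

/-- incomplete sums -/
theorem inc_le (k J N : ℕ) (hJ : 2 ≤ J) (hN : 1 ≤ N) (t μ : ℝ)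
    (h : ∀ ψ : Polynomial ℝ, ψ.natDegree < J → ‖sG N (fz k t ψ)‖ ≤ μ) (m : ℕ) (hm : m ≤ N) (ψ : Polynomial ℝ)
    (hψ : ψ.natDegree < J) : ‖sG m (fz k t ψ)‖ ≤ (4 + 4 * Real.log N) * μ := by
  have hN' : (1 : ℝ) ≤ N := by exact_mod_cast hN
  have hμ : 0 ≤ μ := (norm_nonneg _).trans (h ψ hψ)
  have h1 := max_le N m hN hm (fun n => e (fz k t ψ n)) μ (fun η => by
    have h2 := h (ψ + Polynomial.C η * Polynomial.X) (by
      refine lt_of_le_of_lt (Polynomial.natDegree_add_le _ _) (max_lt hψ ?_)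
      exact lt_of_le_of_lt ((Polynomial.natDegree_C_mul_le η _).trans Polynomial.natDegree_X_le) (by omega))
    have h3 : sG N (fz k t (ψ + Polynomial.C η * Polynomial.X)) = ∑ n ∈ Icc 1 N, e (fz k t ψ n) * e (η * n) := by
      unfold sG
      refine sum_congr rfl fun n _ => ?_
      rw [← e_add]
      congr 1
      unfold fz
      simp only [Polynomial.eval_add, Polynomial.eval_mul, Polynomial.eval_C, Polynomial.eval_X]
      push_cast
      ring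
    rwa [h3] at h2) 0
  have h4 : ∑ n ∈ Icc 1 m, e (fz k t ψ n) * e (0 * n) = sG m (fz k t ψ) := by
    unfold sG
    refine sum_congr rfl fun n _ => ?_
    rw [← e_add]
    congr 1
    ring
  rw [h4] at h1
  refine h1.trans ?_
  apply mul_le_mul_of_nonneg_right _ hμ
  have := Real.log_nonneg hN'
  linarith

/-- passing from `t'` to a point at a distance at most `N ^ (-k)` -/
theorem shift_le (k N M : ℕ) (t t' B : ℝ) (ψ : Polynomial ℝ) (hN : 1 ≤ N) (hM : M ≤ N) (hB : 0 ≤ B)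
    (htt : |t - t'| ≤ 1 / (N : ℝ) ^ k)
    (h : ∀ m : ℕ, m ≤ N → ‖sG m (fz k t' ψ)‖ ≤ B) : ‖sG M (fz k t ψ)‖ ≤ (1 + 2 * Real.pi * 2 ^ k) * B := by
  have hN' : (1 : ℝ) ≤ N := by exact_mod_cast hN
  have hN0 : (0 : ℝ) < N := by linarith
  have h1 : sG M (fz k t ψ) = ∑ x ∈ range M, e ((t - t') * ((x + 1 : ℕ) : ℝ) ^ k) *
      e (fz k t' ψ ((x + 1 : ℕ) : ℤ)) := by
    unfold sG
    rw [sum_Icc_range]
    apply Finset.sum_congr rfl
    intro x _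
    rw [← e_add]
    congr 1
    unfold fz
    push_cast
    ring
  have h2 := Pool.Agent.H520R3.abel_bound (fun x : ℕ => e ((t - t') * ((x + 1 : ℕ) : ℝ) ^ k))
    (fun x : ℕ => e (fz k t' ψ ((x + 1 : ℕ) : ℤ))) B (2 * Real.pi * 2 ^ k) hB M
    (by
      intro X hX
      have h3 := h X (hX.trans hM)
      unfold sG at h3
      rwa [sum_Icc_range] at h3)
    (fun x => (e_norm _).le)
    (by
      have h4 : ∀ x ∈ range M, ‖e ((t - t') * ((x + 1 + 1 : ℕ) : ℝ) ^ k) - e ((t - t') * ((x + 1 : ℕ) : ℝ) ^ k)‖ ≤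
          2 * Real.pi * |t - t'| * (((x + 1 + 1 : ℕ) : ℝ) ^ k - ((x + 1 : ℕ) : ℝ) ^ k) := by
        intro x _
        refine (e_lip _ _).trans (le_of_eq ?_)
        rw [← mul_sub, abs_mul, abs_of_nonneg (a := ((x + 1 + 1 : ℕ) : ℝ) ^ k - ((x + 1 : ℕ) : ℝ) ^ k)]
        · ring
        · have : ((x + 1 : ℕ) : ℝ) ^ k ≤ ((x + 1 + 1 : ℕ) : ℝ) ^ k :=
            pow_le_pow_left₀ (by positivity) (by push_cast; linarith) k
          linarith
      refine (Finset.sum_le_sum h4).trans ?_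
      rw [← Finset.mul_sum, Finset.sum_range_sub (fun x : ℕ => ((x + 1 : ℕ) : ℝ) ^ k)]
      have h5 : ((M + 1 : ℕ) : ℝ) ^ k - ((0 + 1 : ℕ) : ℝ) ^ k ≤ (2 * (N : ℝ)) ^ k := by
        have h6 : ((M + 1 : ℕ) : ℝ) ^ k ≤ (2 * (N : ℝ)) ^ k := by
          apply pow_le_pow_left₀ (by positivity)
          have : (M : ℝ) ≤ N := by exact_mod_cast hM
          push_cast
          linarith
        have h7 : (0 : ℝ) ≤ ((0 + 1 : ℕ) : ℝ) ^ k := by positivity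
        linarith
      calc 2 * Real.pi * |t - t'| * (((M + 1 : ℕ) : ℝ) ^ k - ((0 + 1 : ℕ) : ℝ) ^ k)
          ≤ 2 * Real.pi * |t - t'| * (2 * (N : ℝ)) ^ k :=
            mul_le_mul_of_nonneg_left h5 (by positivity)
        _ ≤ 2 * Real.pi * (1 / (N : ℝ) ^ k) * (2 * (N : ℝ)) ^ k := by
            apply mul_le_mul_of_nonneg_right _ (by positivity)
            exact mul_le_mul_of_nonneg_left htt (by positivity)
        _ = 2 * Real.pi * 2 ^ k := by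
            rw [mul_pow]
            field_simp)
  rw [h1]
  refine h2.trans (le_of_eq ?_)
  ring

/-- the exceptional real numbers in `[0, 1)` at the scale `2 ^ i` -/
def Bad (k J : ℕ) (c : ℝ) (i : ℕ) : Set ℝ :=
  {t : ℝ | t ∈ Set.Ico (0 : ℝ) 1 ∧ ∃ M : ℕ, M ≤ 2 ^ i ∧ 2 ^ i ≤ 2 * M ∧ ∃ ψ : Polynomial ℝ, ψ.natDegree < J ∧
    (M : ℝ) ^ c < ‖sG M (fz k t ψ)‖}

/-- the exponent of the number of the intervals -/
noncomputable def ex (k J : ℕ) (c : ℝ) : ℝ := k + 2 ^ (J + 1) - (J + 1) - 2 ^ (J + 1) * c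

theorem cover (k J : ℕ) (hJ : 2 ≤ J) (hk : J < k) (c : ℝ) (hc : 0 < c)
    (ε' : ℝ) (hε' : 0 < ε') (hε2 : 2 ^ J * (1 - c + ε') < 1) : ∃ i0 : ℕ, ∀ i : ℕ, i0 ≤ i → ∃ T : Finset ℝ,
      (T.card : ℝ) ≤ ((2 : ℝ) ^ i) ^ (ex k J c + (2 ^ (J + 1) + 2) * ε') ∧
      Bad k J c i ⊆ ⋃ x ∈ T, Set.Icc x (x + ((2 : ℝ) ^ i) ^ (-(k : ℝ))) := by
  classical
  obtain ⟨j, hj⟩ : ∃ j : ℕ, J = j + 1 := ⟨J - 1, by omega⟩
  obtain ⟨C, hC0, hC⟩ := few k j (by omega) ε' hε'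
  rw [← hj] at hC
  obtain ⟨i1, h1⟩ := ev_log ε' hε' ((1 + 2 * Real.pi * 2 ^ k) * (2 : ℝ) ^ c)
  obtain ⟨i2, h2⟩ := ev_pow ε' hε' C
  obtain ⟨i3, h3⟩ := ev_pow (1 - 2 ^ J * (1 - c + ε')) (by linarith) (2 * ((J : ℕ) + k : ℝ) * 3 ^ (2 ^ J - 1))
  refine ⟨i1 + i2 + i3, fun i hi => ?_⟩
  have g1 := h1 i (by omega)
  have g2 := h2 i (by omega)
  have g3 := h3 i (by omega)
  obtain ⟨X, hX⟩ : ∃ X : ℝ, X = (2 : ℝ) ^ i := ⟨_, rfl⟩
  rw [← hX] at g1 g2 g3 ⊢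
  have hX1 : (1 : ℝ) ≤ X := by rw [hX]; exact one_le_pow₀ (by norm_num)
  have hX0 : (0 : ℝ) < X := by linarith
  have hNX : (((2 ^ i : ℕ) : ℕ) : ℝ) = X := by rw [hX]; push_cast; rfl
  obtain ⟨N, hN⟩ : ∃ N : ℕ, N = 2 ^ i := ⟨_, rfl⟩
  have hN1 : 1 ≤ N := by rw [hN]; exact Nat.one_le_two_pow
  have hNX' : (N : ℝ) = X := by rw [hN]; exact hNX
  obtain ⟨M, hM⟩ : ∃ M : ℕ, M = DN k J N := ⟨_, rfl⟩
  have hM0 : (0 : ℝ) < (M : ℝ) := by rw [hM, DN]; positivity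
  obtain ⟨μ, hμ⟩ : ∃ μ : ℝ, μ = X ^ (c - ε') := ⟨_, rfl⟩
  have hμ0 : 0 < μ := by rw [hμ]; positivity
  have hgm2 : 1 / (M : ℝ) ≤ 1 / X ^ k := by
    apply one_div_le_one_div_of_le (by positivity)
    have h4 : (M : ℝ) = 2 ^ (J + 1) * X ^ k + 1 := by rw [hM, DN]; push_cast; rw [hNX']
    have h5 : 0 < X ^ k := by positivity
    have h6 : (1 : ℝ) ≤ 2 ^ (J + 1) := one_le_pow₀ (by norm_num)
    nlinarith
  obtain ⟨T0, hT0⟩ : ∃ T0 : Finset ℕ, T0 = (range M).filter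
    (fun v : ℕ => ∃ ψ : Polynomial ℝ, ψ.natDegree < J ∧ μ < ‖sG N (fz k ((v : ℝ) / (M : ℕ)) ψ)‖) := ⟨_, rfl⟩
  refine ⟨T0.image (fun v : ℕ => (v : ℝ) / (M : ℝ)), ?_, ?_⟩
  · have hcond : 2 * ((J : ℕ) + k : ℝ) * (2 * (N : ℝ) + 1) ^ (2 ^ J - 1) ≤ μ ^ (2 ^ J) := by
      have h4 : 2 * (N : ℝ) + 1 ≤ 3 * X := by rw [hNX']; linarith
      have h5 : ((2 ^ J - 1 : ℕ) : ℝ) = 2 ^ J - 1 := by
        rw [Nat.cast_sub Nat.one_le_two_pow]
        push_cast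
        ring
      have h6 : μ ^ (2 ^ J) = X ^ (1 - 2 ^ J * (1 - c + ε')) * X ^ (2 ^ J - 1) := by
        rw [hμ, ← Real.rpow_natCast (X ^ (c - ε')), ← Real.rpow_mul hX0.le, ← Real.rpow_natCast X (2 ^ J - 1), h5,
          ← Real.rpow_add hX0]
        congr 1
        push_cast
        ring
      rw [h6]
      calc 2 * ((J : ℕ) + k : ℝ) * (2 * (N : ℝ) + 1) ^ (2 ^ J - 1) ≤
            2 * ((J : ℕ) + k : ℝ) * (3 * X) ^ (2 ^ J - 1) := by gcongr
        _ = (2 * ((J : ℕ) + k : ℝ) * 3 ^ (2 ^ J - 1)) * X ^ (2 ^ J - 1) := by rw [mul_pow]; ring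
        _ ≤ _ := mul_le_mul_of_nonneg_right g3 (by positivity)
    have h3 := hC N hN1 μ hμ0 T0 (by rw [hT0, hM]; exact filter_subset _ _) (by
      intro v hv
      rw [hT0, mem_filter, hM] at hv
      exact hv.2) hcond
    rw [hNX'] at h3
    have h4 : μ ^ (2 ^ (j + 2)) = X ^ (2 ^ (J + 1) * (c - ε')) := by
      rw [hμ, ← Real.rpow_natCast, ← Real.rpow_mul hX0.le, hj]
      congr 1
      push_cast
      ring
    have h5 : ((T0.image (fun v : ℕ => (v : ℝ) / (M : ℝ))).card : ℝ) ≤ T0.card := by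
      exact_mod_cast card_image_le
    refine h5.trans ?_
    have h7 : ((k + 2 ^ (j + 2) - (j + 2) : ℕ) : ℝ) = k + 2 ^ (J + 1) - (J + 1) := by
      have h8 : j + 2 ≤ 2 ^ (j + 2) := by
        have := two_pow_ge (j + 2)
        omega
      rw [Nat.cast_sub (by omega), hj]
      push_cast
      ring
    rw [h7] at h3
    have h6 : (T0.card : ℝ) ≤ C * X ^ ((k + 2 ^ (J + 1) - (J + 1) : ℝ) + ε') / μ ^ (2 ^ (j + 2)) := by
      rw [le_div_iff₀ (by positivity)]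
      exact h3
    refine h6.trans ?_
    rw [h4, mul_div_assoc, ← Real.rpow_sub hX0]
    calc C * X ^ ((k + 2 ^ (J + 1) - (J + 1) : ℝ) + ε' - 2 ^ (J + 1) * (c - ε')) ≤
          X ^ ε' * X ^ ((k + 2 ^ (J + 1) - (J + 1) : ℝ) + ε' - 2 ^ (J + 1) * (c - ε')) :=
          mul_le_mul_of_nonneg_right g2 (by positivity)
      _ = X ^ (ex k J c + (2 ^ (J + 1) + 2) * ε') := by
          rw [← Real.rpow_add hX0]
          congr 1
          unfold ex
          ring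
  · rintro t ⟨⟨ht0, ht1⟩, M', hM1, hM2, ψ, hψ, hψ2⟩
    obtain ⟨v, hv⟩ : ∃ v : ℕ, v = ⌊t * M⌋₊ := ⟨_, rfl⟩
    have htM : 0 ≤ t * M := by positivity
    have hv1' : (v : ℝ) ≤ t * M := by rw [hv]; exact Nat.floor_le htM
    have hv2' : t * M < v + 1 := by rw [hv]; exact Nat.lt_floor_add_one _
    obtain ⟨t', ht'⟩ : ∃ t' : ℝ, t' = (v : ℝ) / (M : ℝ) := ⟨_, rfl⟩
    have hv1 : t' ≤ t := by rw [ht', div_le_iff₀ hM0]; exact hv1'
    have hv2 : t ≤ t' + 1 / (M : ℝ) := by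
      rw [ht', ← add_div, le_div_iff₀ hM0]
      exact hv2'.le
    have htt : |t - t'| ≤ 1 / (N : ℝ) ^ k := by
      rw [hNX', abs_of_nonneg (by linarith)]
      linarith
    have hvT : v ∈ T0 := by
      rw [hT0, mem_filter]
      refine ⟨?_, ?_⟩
      · rw [mem_range]
        have h4 : t * M < 1 * M := mul_lt_mul_of_pos_right ht1 hM0
        have h5 : (v : ℝ) < M := by linarith
        exact_mod_cast h5
      by_contra hcon
      push Not at hcon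
      rw [← ht'] at hcon
      have hMN : M' ≤ N := by rw [hN]; exact hM1
      have hlog : 0 ≤ Real.log N := Real.log_natCast_nonneg N
      have h4 := shift_le k N M' t t' ((4 + 4 * Real.log N) * μ) ψ hN1 hMN (by positivity) htt
        (fun m hm => inc_le k J N hJ hN1 t' μ hcon m hm ψ hψ)
      rw [hNX'] at h4
      have h5 : (X / 2) ^ c ≤ (M' : ℝ) ^ c := by
        apply Real.rpow_le_rpow (by positivity) _ hc.le
        have : ((2 ^ i : ℕ) : ℝ) ≤ ((2 * M' : ℕ) : ℝ) := by exact_mod_cast hM2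
        rw [hNX] at this
        push_cast at this
        linarith
      have h6 : (X / 2) ^ c = X ^ c / (2 : ℝ) ^ c := Real.div_rpow hX0.le (by norm_num) c
      have h7 : (1 + 2 * Real.pi * 2 ^ k) * ((4 + 4 * Real.log X) * μ) ≤ X ^ c / (2 : ℝ) ^ c := by
        rw [le_div_iff₀ (by positivity)]
        have h8 : X ^ c = X ^ ε' * μ := by
          rw [hμ, ← Real.rpow_add hX0]
          congr 1
          ring
        rw [h8]
        calc (1 + 2 * Real.pi * 2 ^ k) * ((4 + 4 * Real.log X) * μ) * (2 : ℝ) ^ c =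
              ((1 + 2 * Real.pi * 2 ^ k) * (2 : ℝ) ^ c * (4 + 4 * Real.log X)) * μ := by ring
          _ ≤ X ^ ε' * μ := mul_le_mul_of_nonneg_right g1 hμ0.le
      have h9 : (M' : ℝ) ^ c < (M' : ℝ) ^ c := by
        calc (M' : ℝ) ^ c < ‖sG M' (fz k t ψ)‖ := hψ2
          _ ≤ (1 + 2 * Real.pi * 2 ^ k) * ((4 + 4 * Real.log X) * μ) := h4
          _ ≤ X ^ c / (2 : ℝ) ^ c := h7
          _ = (X / 2) ^ c := h6.symm
          _ ≤ (M' : ℝ) ^ c := h5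
      exact lt_irrefl _ h9
    rw [Set.mem_iUnion₂]
    refine ⟨t', mem_image.2 ⟨v, hvT, ht'.symm⟩, hv1, hv2.trans ?_⟩
    rw [Real.rpow_neg hX0.le, Real.rpow_natCast, ← one_div]
    linarith

theorem dim_lim (k J : ℕ) (hJ : 2 ≤ J) (hk : J < k) (c : ℝ) (hc : 0 < c) (hc2 : 2 ^ J * (1 - c) < 1)
    (d : ℝ) (hd : 0 < d) (hdd : ex k J c < k * d) :
    dimH {t : ℝ | ∀ i1 : ℕ, ∃ i : ℕ, i1 ≤ i ∧ t ∈ Bad k J c i} ≤ ENNReal.ofReal d := by
  have hJ0 : (0 : ℝ) < 2 ^ (J + 1) + 2 := by positivity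
  have hJ1 : (0 : ℝ) < 2 ^ J := by positivity
  obtain ⟨ε', hε'⟩ : ∃ ε' : ℝ, ε' = min ((k * d - ex k J c) / (2 * (2 ^ (J + 1) + 2))) ((1 - 2 ^ J * (1 - c)) / (2 * 2 ^ J)) :=
    ⟨_, rfl⟩
  have h0 : 0 < k * d - ex k J c := by linarith
  have h0' : 0 < 1 - 2 ^ J * (1 - c) := by linarith
  have h1 : 0 < ε' := by rw [hε']; exact lt_min (by positivity) (by positivity)
  have h2 : (2 ^ (J + 1) + 2) * ε' ≤ (k * d - ex k J c) / 2 := by
    calc (2 ^ (J + 1) + 2) * ε' ≤ (2 ^ (J + 1) + 2) * ((k * d - ex k J c) / (2 * (2 ^ (J + 1) + 2))) := by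
          rw [hε']
          exact mul_le_mul_of_nonneg_left (min_le_left _ _) hJ0.le
      _ = _ := by field_simp
  have h3 : 2 ^ J * ε' ≤ (1 - 2 ^ J * (1 - c)) / 2 := by
    calc 2 ^ J * ε' ≤ 2 ^ J * ((1 - 2 ^ J * (1 - c)) / (2 * 2 ^ J)) := by
          rw [hε']
          exact mul_le_mul_of_nonneg_left (min_le_right _ _) hJ1.le
      _ = _ := by field_simp
  have hk0 : (0 : ℝ) < k := by exact_mod_cast (by omega : 0 < k)
  refine S_DIMG_t (ex k J c + (2 ^ (J + 1) + 2) * ε') k d (Bad k J c) hk0 hd (by linarith) ?_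
  exact cover k J hJ hk c hc ε' h1 (by rw [mul_add]; linarith)

end Pool.Agent.K9h39.MW
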