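import Pool.Agent.K9h39.MW.D

set_option autoImplicit false

/-! The Hausdorff dimension of the exceptional set. -/

namespace Pool.Agent.K9h39.MW

open Finset MeasureTheory
open Pool.Agent.W928.MW (e e_add e_norm ev_pow ev_log e_lip)

/-- the bound with the exponent `c`, uniform in all lower-order terms of a degree less than `J` -/
def FlatAt (k J : ℕ) (c t : ℝ) : Prop :=
  ∃ C : ℝ, ∀ N : ℕ, 1 ≤ N → ∀ ψ : Polynomial ℝ, ψ.natDegree < J → ‖sG N (fz k t ψ)‖ ≤ C * (N : ℝ) ^ c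

theorem sG_le (N : ℕ) (F : ℤ → ℝ) : ‖sG N F‖ ≤ N := by
  unfold sG
  refine (norm_sum_le _ _).trans (le_of_eq ?_)
  simp only [e_norm]
  rw [Finset.sum_const, Nat.card_Icc, Nat.add_sub_cancel, nsmul_eq_mul, mul_one]

theorem FlatAt_mono {k J : ℕ} {c c' t : ℝ} (h : c ≤ c') (hF : FlatAt k J c t) : FlatAt k J c' t := by
  obtain ⟨C, hC⟩ := hF
  refine ⟨|C|, fun N hN ψ hψ => (hC N hN ψ hψ).trans ?_⟩
  have hN1 : (1 : ℝ) ≤ N := by exact_mod_cast hN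
  exact mul_le_mul (le_abs_self C) (Real.rpow_le_rpow_of_exponent_le hN1 h) (by positivity) (abs_nonneg C)

theorem flat_of (k J : ℕ) (c : ℝ) (hc : 0 < c) (t : ℝ) (ht : t ∈ Set.Ico (0 : ℝ) 1)
    (hcon : ¬ ∀ i1 : ℕ, ∃ i : ℕ, i1 ≤ i ∧ t ∈ Bad k J c i) : FlatAt k J c t := by
  push Not at hcon
  obtain ⟨i1, hcon⟩ := hcon
  refine ⟨(2 : ℝ) ^ i1 + 1, fun N hN ψ hψ => ?_⟩
  have hN1 : (1 : ℝ) ≤ N := by exact_mod_cast hN
  have hNc : (1 : ℝ) ≤ (N : ℝ) ^ c := Real.one_le_rpow hN1 hc.le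
  have hp : (0 : ℝ) < (2 : ℝ) ^ i1 := by positivity
  rcases le_total N (2 ^ i1) with hN2 | hN2
  · have h4 : (N : ℝ) ≤ (2 : ℝ) ^ i1 := by exact_mod_cast hN2
    refine (sG_le N _).trans ?_
    nlinarith
  · obtain ⟨i, hi1, hi2⟩ : ∃ i : ℕ, N ≤ 2 ^ i ∧ 2 ^ i ≤ 2 * N := by
      refine ⟨Nat.log 2 N + 1, (Nat.lt_pow_succ_log_self (by norm_num) N).le, ?_⟩
      have := Nat.pow_log_le_self 2 (show N ≠ 0 by omega)
      rw [pow_succ]
      omega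
    have hii : i1 ≤ i := by
      have : 2 ^ i1 ≤ 2 ^ i := hN2.trans hi1
      exact (Nat.pow_le_pow_iff_right (by norm_num)).mp this
    have h5 := hcon i hii
    have h6 : ‖sG N (fz k t ψ)‖ ≤ (N : ℝ) ^ c := by
      by_contra h7
      push Not at h7
      exact h5 ⟨ht, N, hi1, hi2, ψ, hψ, h7⟩
    nlinarith

theorem dim_unit (k J : ℕ) (hJ : 2 ≤ J) (hk : J < k) (c : ℝ) (hc : 0 < c) (hc2 : 2 ^ J * (1 - c) < 1) :
    dimH {t : ℝ | t ∈ Set.Ico (0 : ℝ) 1 ∧ ¬ FlatAt k J c t} ≤ ENNReal.ofReal (ex k J c / k) := by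
  have hk0 : (0 : ℝ) < k := by exact_mod_cast (by omega : 0 < k)
  have hsub : {t : ℝ | t ∈ Set.Ico (0 : ℝ) 1 ∧ ¬ FlatAt k J c t} ⊆
      {t : ℝ | ∀ i1 : ℕ, ∃ i : ℕ, i1 ≤ i ∧ t ∈ Bad k J c i} := by
    rintro t ⟨ht1, ht2⟩
    by_contra hcon
    exact ht2 (flat_of k J c hc t ht1 hcon)
  refine (dimH_mono hsub).trans ?_
  apply ENNReal.le_of_forall_pos_le_add
  intro δ hδ _
  have hδ' : (0 : ℝ) < δ := by exact_mod_cast hδ
  have h1 := dim_lim k J hJ hk c hc hc2 (max (ex k J c / k) 0 + δ) (by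
    have := le_max_right (ex k J c / k) 0
    linarith) (by
    have h2 := le_max_left (ex k J c / k) 0
    have h3 : ex k J c / k < max (ex k J c / k) 0 + δ := by linarith
    rw [div_lt_iff₀ hk0] at h3
    linarith)
  refine h1.trans ?_
  rw [ENNReal.ofReal_add (le_max_right _ _) hδ'.le]
  refine add_le_add (le_of_eq ?_) (le_of_eq ?_)
  · rw [ENNReal.ofReal_max, ENNReal.ofReal_zero, max_eq_left zero_le]
  · exact ENNReal.ofReal_coe_nnreal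

theorem e_int_add (x : ℝ) (m : ℤ) : e (x + m) = e x := by
  rw [e_add, Pool.Agent.TH181.MW.e_eq (m : ℝ), Pool.Agent.H520R3.e_int, mul_one]

/-- periodicity -/
theorem sG_per (k N : ℕ) (t : ℝ) (m : ℤ) (ψ : Polynomial ℝ) : sG N (fz k (t + m) ψ) = sG N (fz k t ψ) := by
  unfold sG
  refine sum_congr rfl fun n _ => ?_
  have h1 : fz k (t + m) ψ n = fz k t ψ n + ((m * (n : ℤ) ^ k : ℤ) : ℝ) := by
    unfold fz
    push_cast
    ring
  rw [h1, e_int_add]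

theorem dim_all (k J : ℕ) (hJ : 2 ≤ J) (hk : J < k) (c : ℝ) (hc : 0 < c) (hc2 : 2 ^ J * (1 - c) < 1) :
    dimH {t : ℝ | ¬ FlatAt k J c t} ≤ ENNReal.ofReal (ex k J c / k) := by
  have hsub : {t : ℝ | ¬ FlatAt k J c t} ⊆
      ⋃ m : ℤ, (fun s : ℝ => s + m) '' {t : ℝ | t ∈ Set.Ico (0 : ℝ) 1 ∧ ¬ FlatAt k J c t} := by
    intro t ht
    refine Set.mem_iUnion.2 ⟨⌊t⌋, Int.fract t, ⟨⟨Int.fract_nonneg t, Int.fract_lt_one t⟩, ?_⟩, Int.fract_add_floor t⟩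
    intro hF
    apply ht
    obtain ⟨C, hC⟩ := hF
    refine ⟨C, fun N hN ψ hψ => ?_⟩
    have h1 := hC N hN ψ hψ
    rw [← sG_per k N (Int.fract t) ⌊t⌋ ψ, Int.fract_add_floor] at h1
    exact h1
  refine (dimH_mono hsub).trans ?_
  rw [dimH_iUnion]
  refine iSup_le fun m => ?_
  rw [(isometry_add_right (m : ℝ)).dimH_image]
  exact dim_unit k J hJ hk c hc hc2

/-- the dimension of the exceptional set -/
theorem dim_main (k J : ℕ) (hJ : 2 ≤ J) (hk : J < k) (θ : ℝ) (hθ : 2 ^ J * θ ≤ 1) :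
    dimH {t : ℝ | ∃ c : ℝ, 1 - θ < c ∧ ¬ FlatAt k J c t} ≤ ENNReal.ofReal (1 - (J + 1 - 2 ^ (J + 1) * θ) / k) := by
  have hk0 : (0 : ℝ) < k := by exact_mod_cast (by omega : 0 < k)
  have hJ1 : (1 : ℝ) < 2 ^ J := one_lt_pow₀ (by norm_num) (by omega)
  have hθ1 : θ < 1 := by
    by_contra hcon
    push Not at hcon
    nlinarith
  have hsub : {t : ℝ | ∃ c : ℝ, 1 - θ < c ∧ ¬ FlatAt k J c t} ⊆
      ⋃ n : ℕ, {t : ℝ | ¬ FlatAt k J (1 - θ + 1 / ((n : ℝ) + 1)) t} := by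
    rintro t ⟨c, hc, ht⟩
    obtain ⟨n, hn⟩ := exists_nat_one_div_lt (sub_pos.2 hc)
    exact Set.mem_iUnion.2 ⟨n, fun h => ht (FlatAt_mono (by linarith) h)⟩
  refine (dimH_mono hsub).trans ?_
  rw [dimH_iUnion]
  refine iSup_le fun n => ?_
  have hn : (0 : ℝ) < 1 / ((n : ℝ) + 1) := by positivity
  have h1 : 0 < 2 ^ J * (1 / ((n : ℝ) + 1)) := by positivity
  refine (dim_all k J hJ hk (1 - θ + 1 / ((n : ℝ) + 1)) (by linarith) ?_).trans ?_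
  · have : (2 : ℝ) ^ J * (1 - (1 - θ + 1 / ((n : ℝ) + 1))) = 2 ^ J * θ - 2 ^ J * (1 / ((n : ℝ) + 1)) := by ring
    rw [this]
    linarith
  · apply ENNReal.ofReal_le_ofReal
    have h2 : ex k J (1 - θ + 1 / ((n : ℝ) + 1)) = k - (J + 1 - 2 ^ (J + 1) * θ) - 2 * (2 ^ J * (1 / ((n : ℝ) + 1))) := by
      unfold ex
      ring
    rw [div_le_iff₀ hk0, h2]
    have h3 : (1 - ((J : ℝ) + 1 - 2 ^ (J + 1) * θ) / k) * k = k - (J + 1 - 2 ^ (J + 1) * θ) := by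
      field_simp
    rw [h3]
    linarith

end Pool.Agent.K9h39.MW
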